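import Pool.Agent.H24.Tri.Comb
import Pool.Agent.H19.TriS.Base

/-! Project TRI, section S, part D: sums over squares and scales. -/

set_option autoImplicit false

open MeasureTheory Set Complex Metric Filter Topology
open scoped Real ENNReal NNReal FourierTransform ComplexConjugate

namespace Pool.Agent.H24.Tri

private lemma sD_sq_closed (s : ℝ) (n : ℤ × ℤ) : IsClosed (sq s n) := by
  have h1 : IsClosed {k : ℂ | |k.re - s * n.1| ≤ s} :=
    isClosed_le (by fun_prop) continuous_const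
  have h2 : IsClosed {k : ℂ | |k.im - s * n.2| ≤ s} :=
    isClosed_le (by fun_prop) continuous_const
  exact h1.inter h2

private lemma sD_int_card (s a : ℝ) (hs : 0 < s) (F : Finset ℤ)
    (hF : ∀ m ∈ F, |a - s * m| ≤ s) : F.card ≤ 3 := by
  have hsub : F ⊆ Finset.Icc (⌈a / s - 1⌉) (⌊a / s + 1⌋) := by
    intro m hm
    have h := abs_le.1 (hF m hm)
    rw [Finset.mem_Icc]
    constructor
    · rw [Int.ceil_le]
      rw [sub_le_iff_le_add, div_le_iff₀ hs]
      nlinarith [h.2]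
    · rw [Int.le_floor]
      have : (m : ℝ) - 1 ≤ a / s := by
        rw [le_div_iff₀ hs]; nlinarith [h.1]
      linarith
  have h1 := Finset.card_le_card hsub
  rw [Int.card_Icc] at h1
  have h2 : (⌊a / s + 1⌋ : ℝ) ≤ a / s + 1 := Int.floor_le _
  have h3 : a / s - 1 ≤ (⌈a / s - 1⌉ : ℝ) := Int.le_ceil _
  have h4 : ((⌊a / s + 1⌋ - ⌈a / s - 1⌉ : ℤ) : ℝ) ≤ 2 := by push_cast; linarith
  have h5 : ⌊a / s + 1⌋ - ⌈a / s - 1⌉ ≤ 2 := by exact_mod_cast h4
  omega

/-- a point lies in at most nine squares -/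
private lemma sD_mult (s : ℝ) (hs : 0 < s) (x : ℂ) (F : Finset (ℤ × ℤ))
    (hF : ∀ n ∈ F, x ∈ sq s n) : F.card ≤ 9 := by
  classical
  have h1 : F ⊆ (F.image Prod.fst) ×ˢ (F.image Prod.snd) := by
    intro n hn
    rw [Finset.mem_product]
    exact ⟨Finset.mem_image_of_mem _ hn, Finset.mem_image_of_mem _ hn⟩
  have h2 : (F.image Prod.fst).card ≤ 3 := by
    apply sD_int_card s x.re hs
    intro m hm
    obtain ⟨n, hn, rfl⟩ := Finset.mem_image.1 hm
    exact (hF n hn).1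
  have h3 : (F.image Prod.snd).card ≤ 3 := by
    apply sD_int_card s x.im hs
    intro m hm
    obtain ⟨n, hn, rfl⟩ := Finset.mem_image.1 hm
    exact (hF n hn).2
  have h4 := Finset.card_le_card h1
  rw [Finset.card_product] at h4
  calc F.card ≤ _ := h4
    _ ≤ 3 * 3 := Nat.mul_le_mul h2 h3
    _ = 9 := rfl

/-- distances between squares -/
private lemma sD_dist (s : ℝ) (n d : ℤ × ℤ) (x y : ℂ) (hx : x ∈ sq s n) (hy : y ∈ sq s (n + d)) :
    ‖(y - x) - s * gi d‖ ≤ 3 * s := by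
  obtain ⟨h1, h2⟩ := hx
  obtain ⟨h3, h4⟩ := hy
  have hs : 0 ≤ s := le_trans (abs_nonneg _) h1
  have e1 : ((y - x) - s * gi d).re = (y.re - s * ((n.1 : ℝ) + d.1)) - (x.re - s * n.1) := by
    simp [gi]; ring
  have e2 : ((y - x) - s * gi d).im = (y.im - s * ((n.2 : ℝ) + d.2)) - (x.im - s * n.2) := by
    simp [gi]; ring
  have h3' : |y.re - s * ((n.1 : ℝ) + d.1)| ≤ s := by
    have : (((n + d).1 : ℤ) : ℝ) = (n.1 : ℝ) + d.1 := by simp
    rw [← this]; exact h3
  have h4' : |y.im - s * ((n.2 : ℝ) + d.2)| ≤ s := by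
    have : (((n + d).2 : ℤ) : ℝ) = (n.2 : ℝ) + d.2 := by simp
    rw [← this]; exact h4
  have b1 : |((y - x) - s * gi d).re| ≤ 2 * s := by
    rw [e1]; exact (abs_sub _ _).trans (by linarith)
  have b2 : |((y - x) - s * gi d).im| ≤ 2 * s := by
    rw [e2]; exact (abs_sub _ _).trans (by linarith)
  have q1 : ((y - x) - s * gi d).re ^ 2 ≤ (2 * s) ^ 2 := by
    rw [← sq_abs]; exact pow_le_pow_left₀ (abs_nonneg _) b1 2
  have q2 : ((y - x) - s * gi d).im ^ 2 ≤ (2 * s) ^ 2 := by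
    rw [← sq_abs]; exact pow_le_pow_left₀ (abs_nonneg _) b2 2
  have q3 : ‖(y - x) - s * gi d‖ ^ 2 = ((y - x) - s * gi d).re ^ 2 + ((y - x) - s * gi d).im ^ 2 := by
    rw [Complex.sq_norm, Complex.normSq_apply]; ring
  have q4 : ‖(y - x) - s * gi d‖ ^ 2 ≤ (3 * s) ^ 2 := by rw [q3]; nlinarith [sq_nonneg s]
  exact (sq_le_sq₀ (norm_nonneg _) (by positivity)).1 q4

private lemma sD_dist_le (s : ℝ) (hs : 0 < s) (n d : ℤ × ℤ) (x y : ℂ) (hx : x ∈ sq s n)
    (hy : y ∈ sq s (n + d)) : dist y x ≤ (‖gi d‖ + 3) * s := by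
  have h := sD_dist s n d x y hx hy
  have h2 : ‖y - x‖ ≤ ‖(y - x) - s * gi d‖ + ‖(s : ℂ) * gi d‖ := by
    have : y - x = ((y - x) - s * gi d) + s * gi d := by ring
    calc ‖y - x‖ = ‖((y - x) - s * gi d) + s * gi d‖ := by rw [← this]
      _ ≤ _ := norm_add_le _ _
  rw [norm_mul, Complex.norm_real, Real.norm_eq_abs, abs_of_pos hs] at h2
  rw [dist_eq_norm]
  nlinarith

private lemma sD_dist_ge (s : ℝ) (hs : 0 < s) (n d : ℤ × ℤ) (x y : ℂ) (hx : x ∈ sq s n)
    (hy : y ∈ sq s (n + d)) : (‖gi d‖ - 3) * s ≤ dist y x := by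
  have h := sD_dist s n d x y hx hy
  have h2 : ‖(s : ℂ) * gi d‖ ≤ ‖(y - x) - s * gi d‖ + ‖y - x‖ := by
    have : (s : ℂ) * gi d = -((y - x) - s * gi d) + (y - x) := by ring
    calc ‖(s : ℂ) * gi d‖ = ‖-((y - x) - s * gi d) + (y - x)‖ := by rw [← this]
      _ ≤ _ := (norm_add_le _ _).trans (by rw [norm_neg])
  rw [norm_mul, Complex.norm_real, Real.norm_eq_abs, abs_of_pos hs] at h2
  rw [dist_eq_norm]
  nlinarith

/-- counting lemma -/
private lemma sD_count (μ : Measure ℂ) [IsFiniteMeasure μ] (s : ℝ) (hs : 0 < s) (J : ℕ)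
    (F : ℕ → Finset (ℤ × ℤ)) (T : ℕ → ℤ × ℤ → Set ℂ) (hT : ∀ j n, MeasurableSet (T j n))
    (hTs : ∀ j n, T j n ⊆ sq (s * 2 ^ j) n)
    (c : ℕ → ℤ × ℤ → Prop) [∀ j n, Decidable (c j n)] (P : ℕ → ℂ → Prop) [∀ j x, Decidable (P j x)]
    (hP : ∀ j n x, c j n → x ∈ T j n → P j x)
    (K : ℝ) (hK : ∀ x, (((Finset.range J).filter (fun j => P j x)).card : ℝ) ≤ K) :
    ∑ j ∈ Finset.range J, ∑ n ∈ F j, (if c j n then μ.real (T j n) else 0) ≤
      9 * K * μ.real univ := by
  classical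
  have e1 : ∀ j n, (if c j n then μ.real (T j n) else 0) =
      ∫ x, (if c j n then (T j n).indicator (fun _ => (1 : ℝ)) x else 0) ∂μ := by
    intro j n
    by_cases h : c j n
    · simp only [h, if_true]
      rw [integral_indicator (hT j n)]
      simp
    · simp [h]
  have hint : ∀ j n, Integrable
      (fun x => (if c j n then (T j n).indicator (fun _ => (1 : ℝ)) x else 0)) μ := by
    intro j n
    by_cases h : c j n
    · simp only [h, if_true]
      exact (integrable_const (1 : ℝ)).indicator (hT j n)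
    · simp only [h, if_false]
      exact integrable_zero _ _ _
  have e2 : ∑ j ∈ Finset.range J, ∑ n ∈ F j, (if c j n then μ.real (T j n) else 0) =
      ∫ x, ∑ j ∈ Finset.range J, ∑ n ∈ F j,
        (if c j n then (T j n).indicator (fun _ => (1 : ℝ)) x else 0) ∂μ := by
    rw [integral_finsetSum _ (fun j _ => integrable_finsetSum _ (fun n _ => hint j n))]
    refine Finset.sum_congr rfl fun j _ => ?_
    rw [integral_finsetSum _ (fun n _ => hint j n)]
    exact Finset.sum_congr rfl fun n _ => e1 j n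
  rw [e2]
  have hpt : ∀ x, ∑ j ∈ Finset.range J, ∑ n ∈ F j,
      (if c j n then (T j n).indicator (fun _ => (1 : ℝ)) x else 0) ≤ 9 * K := by
    intro x
    have h1 : ∀ j ∈ Finset.range J, ∑ n ∈ F j,
        (if c j n then (T j n).indicator (fun _ => (1 : ℝ)) x else 0) ≤
          if P j x then (9 : ℝ) else 0 := by
      intro j _
      have h2 : ∑ n ∈ F j, (if c j n then (T j n).indicator (fun _ => (1 : ℝ)) x else 0) =
          (((F j).filter (fun n => c j n ∧ x ∈ T j n)).card : ℝ) := by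
        rw [Finset.card_filter]
        push_cast
        refine Finset.sum_congr rfl fun n _ => ?_
        by_cases ha : c j n
        · by_cases hb : x ∈ T j n
          · simp [ha, hb]
          · simp [ha, hb]
        · simp [ha]
      rw [h2]
      by_cases hPx : P j x
      · simp only [hPx, if_true]
        have := sD_mult (s * 2 ^ j) (by positivity) x ((F j).filter (fun n => c j n ∧ x ∈ T j n))
          (fun n hn => hTs j n (Finset.mem_filter.1 hn).2.2)
        exact_mod_cast this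
      · simp only [hPx, if_false]
        have : (F j).filter (fun n => c j n ∧ x ∈ T j n) = ∅ := by
          rw [Finset.filter_eq_empty_iff]
          rintro n _ ⟨h3, h4⟩
          exact hPx (hP j n x h3 h4)
        rw [this]; simp
    refine (Finset.sum_le_sum h1).trans ?_
    rw [← Finset.sum_filter, Finset.sum_const, nsmul_eq_mul]
    have := hK x
    linarith
  calc ∫ x, ∑ j ∈ Finset.range J, ∑ n ∈ F j,
        (if c j n then (T j n).indicator (fun _ => (1 : ℝ)) x else 0) ∂μ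
      ≤ ∫ _x, 9 * K ∂μ := by
        apply integral_mono _ (integrable_const _) hpt
        exact integrable_finsetSum _ (fun j _ => integrable_finsetSum _ (fun n _ => hint j n))
    _ = 9 * K * μ.real univ := by
        rw [integral_const, smul_eq_mul]; ring

private lemma sD_card_cast (J : ℕ) (p : ℕ → Prop) [DecidablePred p] (q : ℤ → Prop)
    [DecidablePred q] (h : ∀ j, p j → q j) :
    ((Finset.range J).filter p).card ≤
      (((Finset.range J).image (fun j : ℕ => (j : ℤ))).filter q).card := by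
  apply Finset.card_le_card_of_injOn (fun j : ℕ => (j : ℤ))
  · intro j hj
    simp only [Finset.coe_filter, Finset.mem_range, Set.mem_ofPred_eq] at hj
    simp only [Finset.coe_filter, Finset.mem_image, Finset.mem_range, Set.mem_ofPred_eq]
    exact ⟨⟨j, hj.1, rfl⟩, h j hj.2⟩
  · intro a _ b _ hab
    exact Int.ofNat_inj.1 hab

/-- the mass next to a heavy square -/
theorem d_heavy (e : ℤ × ℤ) (he : 8 ≤ ‖gi e‖) : ∃ C : ℝ, 0 ≤ C ∧
    ∀ (μ ν : Measure ℂ) [IsFiniteMeasure μ] [IsFiniteMeasure ν]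
      (V : ℝ), μ.real univ ≤ V → ν.real univ ≤ V →
    ∀ δ s : ℝ, 0 < δ → 0 < s → ∀ (J : ℕ) (F : ℕ → Finset (ℤ × ℤ)),
    ∑ j ∈ Finset.range J, ∑ n ∈ F j,
      (if δ < ν.real (sq (s * 2 ^ j) (n + e)) then μ.real (sq (s * 2 ^ j) n) else 0) ≤
      C * V ^ 2 / δ := by
  obtain ⟨L, hL⟩ := pow_unbounded_of_one_lt (‖gi e‖ + 4) (by norm_num : (1 : ℝ) < 2)
  refine ⟨9 * L, by positivity, ?_⟩
  intro μ ν _ _ V hμ hν δ s hδ hs J F
  have hV : 0 ≤ V := le_trans measureReal_nonneg hμ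
  have hcount := sD_count μ s hs J F (fun j n => sq (s * 2 ^ j) n)
    (fun j n => (sD_sq_closed _ _).measurableSet) (fun j n => le_rfl)
    (fun j n => δ < ν.real (sq (s * 2 ^ j) (n + e)))
    (fun j x => δ < ν.real {y | (4 * s) * 2 ^ (j : ℤ) ≤ dist y x ∧
      dist y x ≤ ((‖gi e‖ + 4) * s) * 2 ^ (j : ℤ)})
    (by
      intro j n x hc hx
      refine lt_of_lt_of_le hc (measureReal_mono ?_ (measure_ne_top _ _))
      intro y hy
      have hsj : 0 < s * 2 ^ j := by positivity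
      have h1 := sD_dist_le _ hsj n e x y hx hy
      have h2 := sD_dist_ge _ hsj n e x y hx hy
      simp only [Set.mem_ofPred_eq, zpow_natCast]
      constructor
      · nlinarith
      · nlinarith)
    (L * V / δ) (by
      intro x
      have h3 := comb2 ν (4 * s) ((‖gi e‖ + 4) * s) (by positivity) L (by nlinarith)
        ((Finset.range J).image (fun j : ℕ => (j : ℤ))) δ hδ x
      have h4 := sD_card_cast J (fun j => δ < ν.real {y | (4 * s) * 2 ^ (j : ℤ) ≤ dist y x ∧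
          dist y x ≤ ((‖gi e‖ + 4) * s) * 2 ^ (j : ℤ)})
        (fun j : ℤ => δ < ν.real {y | (4 * s) * 2 ^ j ≤ dist y x ∧
          dist y x ≤ ((‖gi e‖ + 4) * s) * 2 ^ j}) (fun j h => h)
      rw [le_div_iff₀ hδ]
      have h5 : (((Finset.range J).filter (fun j : ℕ => δ < ν.real {y | (4 * s) * 2 ^ (j : ℤ) ≤ dist y x ∧
          dist y x ≤ ((‖gi e‖ + 4) * s) * 2 ^ (j : ℤ)})).card : ℝ) ≤
          ((((Finset.range J).image (fun j : ℕ => (j : ℤ))).filter (fun j : ℤ => δ < ν.real {y | (4 * s) * 2 ^ j ≤ dist y x ∧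
          dist y x ≤ ((‖gi e‖ + 4) * s) * 2 ^ j})).card : ℝ) := by exact_mod_cast h4
      calc _ ≤ _ := mul_le_mul_of_nonneg_right h5 hδ.le
        _ ≤ L * ν.real univ := h3
        _ ≤ L * V := by gcongr)
  refine hcount.trans ?_
  have h6 : 0 ≤ 9 * (L * V / δ) := by positivity
  calc 9 * (L * V / δ) * μ.real univ ≤ 9 * (L * V / δ) * V := by gcongr
    _ = 9 * L * V ^ 2 / δ := by ring

private lemma sD_meas_ball (ν : Measure ℂ) [IsFiniteMeasure ν] (r : ℝ) :
    Measurable (fun x : ℂ => ν.real (closedBall x r)) := by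
  have h : MeasurableSet {p : ℂ × ℂ | dist p.2 p.1 ≤ r} :=
    (isClosed_le (by fun_prop) continuous_const).measurableSet
  have := (measurable_measure_prodMk_left (ν := ν) h).ennreal_toReal
  exact this

/-- the number of events -/
theorem d_event (η : ℝ) (hη : 0 < η) : ∃ C : ℝ, 0 ≤ C ∧
    ∀ (ν : Measure ℂ) [IsFiniteMeasure ν] (V : ℝ), ν.real univ ≤ V →
    ∀ δ lam s : ℝ, 0 < δ → 0 < lam → 0 < s → ∀ (J : ℕ) (F : ℕ → Finset (ℤ × ℤ)),
    ∑ j ∈ Finset.range J, ∑ n ∈ F j,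
      (if δ < ν.real (sq (s * 2 ^ j) n) ∧ lam < thin ν (s * 2 ^ j) n (η * (s * 2 ^ j)) δ
        then (1 : ℝ) else 0) ≤ C * V / lam := by
  obtain ⟨L, hL⟩ := pow_unbounded_of_one_lt (3 / η) (by norm_num : (1 : ℝ) < 2)
  rw [div_lt_iff₀ hη] at hL
  refine ⟨9 * L, by positivity, ?_⟩
  intro ν _ V hν δ lam s hδ hlam hs J F
  have hV : 0 ≤ V := le_trans measureReal_nonneg hν
  have hcount := sD_count ν s hs J F
    (fun j n => {x | x ∈ sq (s * 2 ^ j) n ∧ ν.real (closedBall x (η * (s * 2 ^ j))) ≤ δ})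
    (fun j n => (sD_sq_closed _ _).measurableSet.inter
      ((sD_meas_ball ν (η * (s * 2 ^ j))) measurableSet_Iic)) (fun j n x hx => hx.1)
    (fun j n => δ < ν.real (sq (s * 2 ^ j) n) ∧ lam < thin ν (s * 2 ^ j) n (η * (s * 2 ^ j)) δ)
    (fun j x => δ < ν.real (closedBall x ((3 * s) * 2 ^ (j : ℤ))) ∧
      ν.real (closedBall x ((η * s) * 2 ^ (j : ℤ))) ≤ δ)
    (by
      intro j n x hc hx
      constructor
      · refine lt_of_lt_of_le hc.1 (measureReal_mono ?_ (measure_ne_top _ _))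
        intro y hy
        have hsj : 0 < s * 2 ^ j := by positivity
        have h1 := sD_dist_le _ hsj n 0 x y hx.1 (by simpa using hy)
        have h0 : ‖gi 0‖ = 0 := by simp [gi]
        rw [h0] at h1
        rw [mem_closedBall, zpow_natCast]
        linarith
      · have h2 := hx.2
        rw [zpow_natCast]
        rwa [← mul_assoc] at h2)
    L (by
      intro x
      have h3 := comb3 ν (η * s) (3 * s) (by positivity) L (by nlinarith)
        ((Finset.range J).image (fun j : ℕ => (j : ℤ))) δ x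
      have h4 := sD_card_cast J (fun j => δ < ν.real (closedBall x ((3 * s) * 2 ^ (j : ℤ))) ∧
          ν.real (closedBall x ((η * s) * 2 ^ (j : ℤ))) ≤ δ)
        (fun j : ℤ => δ < ν.real (closedBall x ((3 * s) * 2 ^ j)) ∧
          ν.real (closedBall x ((η * s) * 2 ^ j)) ≤ δ) (fun j h => h)
      exact_mod_cast h4.trans h3)
  rw [le_div_iff₀ hlam, Finset.sum_mul]
  have h7 : ∀ j ∈ Finset.range J, (∑ n ∈ F j,
      (if δ < ν.real (sq (s * 2 ^ j) n) ∧ lam < thin ν (s * 2 ^ j) n (η * (s * 2 ^ j)) δ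
        then (1 : ℝ) else 0)) * lam ≤ ∑ n ∈ F j,
      (if δ < ν.real (sq (s * 2 ^ j) n) ∧ lam < thin ν (s * 2 ^ j) n (η * (s * 2 ^ j)) δ
        then ν.real {x | x ∈ sq (s * 2 ^ j) n ∧ ν.real (closedBall x (η * (s * 2 ^ j))) ≤ δ}
        else 0) := by
    intro j _
    rw [Finset.sum_mul]
    refine Finset.sum_le_sum fun n _ => ?_
    split_ifs with h
    · rw [one_mul]; exact h.2.le
    · simp
  refine (Finset.sum_le_sum h7).trans (hcount.trans ?_)
  gcongr

private lemma sD_sum_int (μ : Measure ℂ) [IsFiniteMeasure μ] (s : ℝ) (hs : 0 < s)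
    (F : Finset (ℤ × ℤ)) (d : ℤ × ℤ) (D : ℂ → ℝ) (hD0 : ∀ x, 0 ≤ D x) (hDi : Integrable D μ) :
    ∑ n ∈ F, ∫ x in sq s (n + d), D x ∂μ ≤ 9 * ∫ x, D x ∂μ := by
  classical
  have e1 : ∀ n, ∫ x in sq s (n + d), D x ∂μ = ∫ x, (sq s (n + d)).indicator D x ∂μ :=
    fun n => (integral_indicator (sD_sq_closed _ _).measurableSet).symm
  have hint : ∀ n, Integrable (fun x => (sq s (n + d)).indicator D x) μ :=
    fun n => hDi.indicator (sD_sq_closed _ _).measurableSet
  simp only [e1]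
  rw [← integral_finsetSum _ (fun n _ => hint n), ← integral_const_mul]
  apply integral_mono (integrable_finsetSum _ (fun n _ => hint n)) (hDi.const_mul 9)
  intro x
  simp only
  have h2 : ∑ n ∈ F, (sq s (n + d)).indicator D x =
      ((F.filter (fun n => x ∈ sq s (n + d))).card : ℝ) * D x := by
    rw [Finset.card_filter]
    push_cast
    rw [Finset.sum_mul]
    refine Finset.sum_congr rfl fun n _ => ?_
    by_cases hb : x ∈ sq s (n + d)
    · simp [hb]
    · simp [hb]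
  rw [h2]
  have h3 : ((F.filter (fun n => x ∈ sq s (n + d))).image (fun n => n + d)).card ≤ 9 := by
    apply sD_mult s hs x
    intro m hm
    obtain ⟨n, hn, rfl⟩ := Finset.mem_image.1 hm
    exact (Finset.mem_filter.1 hn).2
  rw [Finset.card_image_of_injective _ (add_left_injective d)] at h3
  have h4 : ((F.filter (fun n => x ∈ sq s (n + d))).card : ℝ) ≤ 9 := by exact_mod_cast h3
  exact mul_le_mul_of_nonneg_right h4 (hD0 x)

private lemma sD_sort1 (a b c δ : ℝ) (ha : 0 ≤ a) (hab : a ≤ b) (hac : a ≤ c) (hb' : b ≤ δ)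
    (hc' : c ≤ δ) : Real.sqrt a * Real.sqrt b * Real.sqrt c ≤
      δ ^ (1 / 4 : ℝ) * (min b c * (max b c) ^ (1 / 4 : ℝ)) := by
  have key : ∀ u v : ℝ, a ≤ u → u ≤ v → v ≤ δ → Real.sqrt a * Real.sqrt u * Real.sqrt v ≤
      δ ^ (1 / 4 : ℝ) * (u * v ^ (1 / 4 : ℝ)) := by
    intro u v hau huv hvd
    have hu : 0 ≤ u := ha.trans hau
    have hv : 0 ≤ v := hu.trans huv
    have h1 : Real.sqrt a * Real.sqrt u ≤ u := by
      calc Real.sqrt a * Real.sqrt u ≤ Real.sqrt u * Real.sqrt u := by gcongr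
        _ = u := Real.mul_self_sqrt hu
    have h2 : Real.sqrt v = v ^ (1 / 4 : ℝ) * v ^ (1 / 4 : ℝ) := by
      rw [Real.sqrt_eq_rpow, ← Real.rpow_add' hv (by norm_num)]
      norm_num
    have h3 : v ^ (1 / 4 : ℝ) ≤ δ ^ (1 / 4 : ℝ) := Real.rpow_le_rpow hv hvd (by norm_num)
    have h4 : 0 ≤ v ^ (1 / 4 : ℝ) := Real.rpow_nonneg hv _
    calc Real.sqrt a * Real.sqrt u * Real.sqrt v
        ≤ u * (v ^ (1 / 4 : ℝ) * v ^ (1 / 4 : ℝ)) := by
          rw [h2]; exact mul_le_mul_of_nonneg_right h1 (by positivity)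
      _ ≤ u * (δ ^ (1 / 4 : ℝ) * v ^ (1 / 4 : ℝ)) := by gcongr
      _ = _ := by ring
  rcases le_total b c with h | h
  · rw [min_eq_left h, max_eq_right h]
    exact key b c hab h hc'
  · rw [min_eq_right h, max_eq_left h]
    have := key c b hac h hb'
    calc Real.sqrt a * Real.sqrt b * Real.sqrt c = Real.sqrt a * Real.sqrt c * Real.sqrt b := by ring
      _ ≤ _ := this

private lemma sD_sort (a b c δ : ℝ) (ha : 0 ≤ a) (hb : 0 ≤ b) (hc : 0 ≤ c) (ha' : a ≤ δ)
    (hb' : b ≤ δ) (hc' : c ≤ δ) : Real.sqrt a * Real.sqrt b * Real.sqrt c ≤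
      δ ^ (1 / 4 : ℝ) * (min a b * (max a b) ^ (1 / 4 : ℝ)) +
      δ ^ (1 / 4 : ℝ) * (min a c * (max a c) ^ (1 / 4 : ℝ)) +
      δ ^ (1 / 4 : ℝ) * (min b c * (max b c) ^ (1 / 4 : ℝ)) := by
  have hδ : 0 ≤ δ := ha.trans ha'
  have n1 : 0 ≤ δ ^ (1 / 4 : ℝ) * (min a b * (max a b) ^ (1 / 4 : ℝ)) :=
    mul_nonneg (Real.rpow_nonneg hδ _) (mul_nonneg (le_min ha hb)
      (Real.rpow_nonneg (ha.trans (le_max_left _ _)) _))
  have n2 : 0 ≤ δ ^ (1 / 4 : ℝ) * (min a c * (max a c) ^ (1 / 4 : ℝ)) :=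
    mul_nonneg (Real.rpow_nonneg hδ _) (mul_nonneg (le_min ha hc)
      (Real.rpow_nonneg (ha.trans (le_max_left _ _)) _))
  have n3 : 0 ≤ δ ^ (1 / 4 : ℝ) * (min b c * (max b c) ^ (1 / 4 : ℝ)) :=
    mul_nonneg (Real.rpow_nonneg hδ _) (mul_nonneg (le_min hb hc)
      (Real.rpow_nonneg (hb.trans (le_max_left _ _)) _))
  rcases le_total a b with h1 | h1
  · rcases le_total a c with h2 | h2
    · have := sD_sort1 a b c δ ha h1 h2 hb' hc'
      linarith
    · have := sD_sort1 c a b δ hc h2 (h2.trans h1) ha' hb'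
      have e : Real.sqrt a * Real.sqrt b * Real.sqrt c = Real.sqrt c * Real.sqrt a * Real.sqrt b := by
        ring
      linarith
  · rcases le_total b c with h2 | h2
    · have := sD_sort1 b a c δ hb h1 h2 ha' hc'
      have e : Real.sqrt a * Real.sqrt b * Real.sqrt c = Real.sqrt b * Real.sqrt a * Real.sqrt c := by
        ring
      linarith
    · have := sD_sort1 c a b δ hc (h2.trans h1) h2 ha' hb'
      have e : Real.sqrt a * Real.sqrt b * Real.sqrt c = Real.sqrt c * Real.sqrt a * Real.sqrt b := by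
        ring
      linarith

private lemma sD_pair (μ : Measure ℂ) [IsFiniteMeasure μ] (s K : ℝ) (hs : 0 < s) (n d e : ℤ × ℤ)
    (hK : 4 ≤ K) (hd : ‖gi d‖ + 3 ≤ K) (he : ‖gi e‖ + 3 ≤ K) (hde : 8 ≤ ‖gi (e - d)‖)
    (x y : ℝ) (hx0 : 0 ≤ x) (hy0 : 0 ≤ y) (hx : x ≤ μ.real (sq s (n + d)))
    (hy : y ≤ μ.real (sq s (n + e))) :
    min x y * (max x y) ^ (1 / 4 : ℝ) ≤
      8 * ((∫ z in sq s (n + d), ((μ.real (closedBall z (4 * (K * s)))) ^ (1 / 4 : ℝ) -
        (μ.real (closedBall z s)) ^ (1 / 4 : ℝ)) ∂μ) +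
        ∫ z in sq s (n + e), ((μ.real (closedBall z (4 * (K * s)))) ^ (1 / 4 : ℝ) -
        (μ.real (closedBall z s)) ^ (1 / 4 : ℝ)) ∂μ) := by
  set D : ℂ → ℝ := fun z => (μ.real (closedBall z (4 * (K * s)))) ^ (1 / 4 : ℝ) -
        (μ.real (closedBall z s)) ^ (1 / 4 : ℝ) with hD
  have hDi : Integrable D μ := by
    apply Integrable.sub
    · refine Integrable.of_bound ((sD_meas_ball μ _).pow_const _).aestronglyMeasurable
        ((μ.real univ) ^ (1 / 4 : ℝ)) (Eventually.of_forall fun z => ?_)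
      rw [Real.norm_eq_abs, abs_of_nonneg (Real.rpow_nonneg measureReal_nonneg _)]
      exact Real.rpow_le_rpow measureReal_nonneg (measureReal_mono (subset_univ _)) (by norm_num)
    · refine Integrable.of_bound ((sD_meas_ball μ _).pow_const _).aestronglyMeasurable
        ((μ.real univ) ^ (1 / 4 : ℝ)) (Eventually.of_forall fun z => ?_)
      rw [Real.norm_eq_abs, abs_of_nonneg (Real.rpow_nonneg measureReal_nonneg _)]
      exact Real.rpow_le_rpow measureReal_nonneg (measureReal_mono (subset_univ _)) (by norm_num)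
  have hsep : ∀ a ∈ sq s (n + d), ∀ b ∈ sq s (n + e), 2 * s < dist a b := by
    intro a ha b hb
    have hb' : b ∈ sq s ((n + d) + (e - d)) := by
      rwa [show (n + d) + (e - d) = n + e by abel]
    have := sD_dist_ge s hs (n + d) (e - d) a b ha hb'
    rw [dist_comm]
    nlinarith
  have hdisj : Disjoint (sq s (n + d)) (sq s (n + e)) := by
    rw [Set.disjoint_left]
    intro a ha hb
    have := hsep a ha a hb
    rw [dist_self] at this
    linarith
  have hcenter : (s : ℂ) * gi n ∈ sq s n := by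
    constructor
    · simp [gi, hs.le]
    · simp [gi, hs.le]
  have hb1 : ∀ f : ℤ × ℤ, ‖gi f‖ + 3 ≤ K → sq s (n + f) ⊆ closedBall ((s : ℂ) * gi n) (K * s) := by
    intro f hf a ha
    rw [mem_closedBall]
    exact (sD_dist_le s hs n f _ a hcenter ha).trans (by gcongr)
  have hm1 := (sD_sq_closed s (n + d)).measurableSet
  have hm2 := (sD_sq_closed s (n + e)).measurableSet
  have hunion : ∫ z in sq s (n + d) ∪ sq s (n + e), D z ∂μ =
      (∫ z in sq s (n + d), D z ∂μ) + ∫ z in sq s (n + e), D z ∂μ :=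
    setIntegral_union hdisj hm2 hDi.integrableOn hDi.integrableOn
  have hA : 0 ≤ μ.real (sq s (n + d)) := measureReal_nonneg
  have hB : 0 ≤ μ.real (sq s (n + e)) := measureReal_nonneg
  have hmono : min x y * (max x y) ^ (1 / 4 : ℝ) ≤
      min (μ.real (sq s (n + d))) (μ.real (sq s (n + e))) *
        (max (μ.real (sq s (n + d))) (μ.real (sq s (n + e)))) ^ (1 / 4 : ℝ) := by
    apply mul_le_mul (min_le_min hx hy)
      (Real.rpow_le_rpow (hx0.trans (le_max_left _ _)) (max_le_max hx hy) (by norm_num))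
      (Real.rpow_nonneg (hx0.trans (le_max_left _ _)) _) (le_min hA hB)
  refine hmono.trans ?_
  rcases le_total (μ.real (sq s (n + d))) (μ.real (sq s (n + e))) with h | h
  · rw [min_eq_left h, max_eq_right h, ← hunion]
    exact comb_light μ _ _ hm1 hm2 ((s : ℂ) * gi n) (K * s) s (by positivity) hs (by nlinarith)
      (hb1 d hd) (hb1 e he) hsep h
  · rw [min_eq_right h, max_eq_left h, ← hunion, Set.union_comm]
    exact comb_light μ _ _ hm2 hm1 ((s : ℂ) * gi n) (K * s) s (by positivity) hs (by nlinarith)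
      (hb1 e he) (hb1 d hd) (fun a ha b hb => by rw [dist_comm]; exact hsep b hb a ha) h

/-- light triples -/
theorem d_light (d₂ d₃ : ℤ × ℤ) (h2 : 8 ≤ ‖gi d₂‖) (h3 : 8 ≤ ‖gi d₃‖)
    (h23 : 8 ≤ ‖gi (d₂ - d₃)‖) : ∃ C : ℝ, 0 ≤ C ∧
    ∀ (μ₁ μ₂ μ₃ : Measure ℂ) [IsFiniteMeasure μ₁] [IsFiniteMeasure μ₂] [IsFiniteMeasure μ₃]
      (V : ℝ), μ₁.real univ ≤ V → μ₂.real univ ≤ V → μ₃.real univ ≤ V →
    ∀ δ s : ℝ, 0 < δ → 0 < s → ∀ (J : ℕ) (F : ℕ → Finset (ℤ × ℤ)),
    ∑ j ∈ Finset.range J, ∑ n ∈ F j,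
      (if μ₁.real (sq (s * 2 ^ j) n) ≤ δ ∧ μ₂.real (sq (s * 2 ^ j) (n + d₂)) ≤ δ ∧
          μ₃.real (sq (s * 2 ^ j) (n + d₃)) ≤ δ then
        Real.sqrt (μ₁.real (sq (s * 2 ^ j) n)) * Real.sqrt (μ₂.real (sq (s * 2 ^ j) (n + d₂))) *
          Real.sqrt (μ₃.real (sq (s * 2 ^ j) (n + d₃))) else 0) ≤
      C * δ ^ (1 / 4 : ℝ) * V ^ (5 / 4 : ℝ) := by
  set K : ℝ := ‖gi d₂‖ + ‖gi d₃‖ + 4 with hK
  obtain ⟨L, hL⟩ := pow_unbounded_of_one_lt (4 * K) (by norm_num : (1 : ℝ) < 2)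
  refine ⟨432 * L * 3 ^ (5 / 4 : ℝ), by positivity, ?_⟩
  intro μ₁ μ₂ μ₃ _ _ _ V hV1 hV2 hV3 δ s hδ hs J F
  have hV : 0 ≤ V := le_trans measureReal_nonneg hV1
  set μ : Measure ℂ := μ₁ + μ₂ + μ₃ with hμ
  have hle1 : ∀ S : Set ℂ, μ₁.real S ≤ μ.real S := by
    intro S
    apply ENNReal.toReal_mono (measure_ne_top _ _)
    rw [hμ, Measure.add_apply, Measure.add_apply, add_assoc]
    exact le_self_add
  have hle2 : ∀ S : Set ℂ, μ₂.real S ≤ μ.real S := by
    intro S
    apply ENNReal.toReal_mono (measure_ne_top _ _)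
    rw [hμ, Measure.add_apply, Measure.add_apply]
    exact le_add_self.trans le_self_add
  have hle3 : ∀ S : Set ℂ, μ₃.real S ≤ μ.real S := by
    intro S
    apply ENNReal.toReal_mono (measure_ne_top _ _)
    rw [hμ, Measure.add_apply, Measure.add_apply]
    exact le_add_self
  have huniv : μ.real univ ≤ 3 * V := by
    have : μ.real univ = μ₁.real univ + μ₂.real univ + μ₃.real univ := by
      rw [hμ, measureReal_add_apply, measureReal_add_apply]
    linarith
  have hg0 : ‖gi 0‖ = 0 := by simp [gi]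
  have hgneg : ∀ a : ℤ × ℤ, ‖gi (-a)‖ = ‖gi a‖ := by
    intro a
    have : gi (-a) = -gi a := by simp [gi]; ring
    rw [this, norm_neg]
  have hscale : ∀ j ∈ Finset.range J, ∑ n ∈ F j,
      (if μ₁.real (sq (s * 2 ^ j) n) ≤ δ ∧ μ₂.real (sq (s * 2 ^ j) (n + d₂)) ≤ δ ∧
          μ₃.real (sq (s * 2 ^ j) (n + d₃)) ≤ δ then
        Real.sqrt (μ₁.real (sq (s * 2 ^ j) n)) * Real.sqrt (μ₂.real (sq (s * 2 ^ j) (n + d₂))) *
          Real.sqrt (μ₃.real (sq (s * 2 ^ j) (n + d₃))) else 0) ≤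
      432 * δ ^ (1 / 4 : ℝ) * ∫ z, ((μ.real (closedBall z ((4 * K * s) * 2 ^ (j : ℤ)))) ^ (1 / 4 : ℝ) -
        (μ.real (closedBall z (s * 2 ^ (j : ℤ)))) ^ (1 / 4 : ℝ)) ∂μ := by
    intro j _
    have hsj : 0 < s * 2 ^ j := by positivity
    set t : ℝ := s * 2 ^ j with ht
    have et : s * 2 ^ (j : ℤ) = t := by rw [zpow_natCast]
    have eT : (4 * K * s) * 2 ^ (j : ℤ) = 4 * (K * t) := by rw [zpow_natCast, ht]; ring
    rw [et, eT]
    set D : ℂ → ℝ := fun z => (μ.real (closedBall z (4 * (K * t)))) ^ (1 / 4 : ℝ) -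
        (μ.real (closedBall z t)) ^ (1 / 4 : ℝ) with hD
    have hK4 : 4 ≤ K := by
      rw [hK]; have := norm_nonneg (gi d₂); have := norm_nonneg (gi d₃); linarith
    have hD0 : ∀ x, 0 ≤ D x := by
      intro x
      have : (μ.real (closedBall x t)) ^ (1 / 4 : ℝ) ≤
          (μ.real (closedBall x (4 * (K * t)))) ^ (1 / 4 : ℝ) :=
        Real.rpow_le_rpow measureReal_nonneg
          (measureReal_mono (closedBall_subset_closedBall (by nlinarith))) (by norm_num)
      rw [hD]; simp only; linarith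
    have hDi : Integrable D μ := by
      apply Integrable.sub
      · refine Integrable.of_bound ((sD_meas_ball μ _).pow_const _).aestronglyMeasurable
          ((μ.real univ) ^ (1 / 4 : ℝ)) (Eventually.of_forall fun z => ?_)
        rw [Real.norm_eq_abs, abs_of_nonneg (Real.rpow_nonneg measureReal_nonneg _)]
        exact Real.rpow_le_rpow measureReal_nonneg (measureReal_mono (subset_univ _)) (by norm_num)
      · refine Integrable.of_bound ((sD_meas_ball μ _).pow_const _).aestronglyMeasurable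
          ((μ.real univ) ^ (1 / 4 : ℝ)) (Eventually.of_forall fun z => ?_)
        rw [Real.norm_eq_abs, abs_of_nonneg (Real.rpow_nonneg measureReal_nonneg _)]
        exact Real.rpow_le_rpow measureReal_nonneg (measureReal_mono (subset_univ _)) (by norm_num)
    have hδ4 : 0 ≤ δ ^ (1 / 4 : ℝ) := Real.rpow_nonneg hδ.le _
    have hterm : ∀ n ∈ F j,
        (if μ₁.real (sq t n) ≤ δ ∧ μ₂.real (sq t (n + d₂)) ≤ δ ∧
          μ₃.real (sq t (n + d₃)) ≤ δ then
        Real.sqrt (μ₁.real (sq t n)) * Real.sqrt (μ₂.real (sq t (n + d₂))) *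
          Real.sqrt (μ₃.real (sq t (n + d₃))) else 0) ≤
        16 * δ ^ (1 / 4 : ℝ) * ((∫ z in sq t (n + 0), D z ∂μ) + (∫ z in sq t (n + d₂), D z ∂μ) +
          ∫ z in sq t (n + d₃), D z ∂μ) := by
      intro n _
      have p1 := sD_pair μ t K hsj n 0 d₂ hK4 (by rw [hg0]; linarith)
        (by rw [hK]; have := norm_nonneg (gi d₃); linarith) (by simpa using h2)
        (μ₁.real (sq t n)) (μ₂.real (sq t (n + d₂))) measureReal_nonneg measureReal_nonneg
        (by rw [add_zero]; exact hle1 _) (hle2 _)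
      have p2 := sD_pair μ t K hsj n 0 d₃ hK4 (by rw [hg0]; linarith)
        (by rw [hK]; have := norm_nonneg (gi d₂); linarith) (by simpa using h3)
        (μ₁.real (sq t n)) (μ₃.real (sq t (n + d₃))) measureReal_nonneg measureReal_nonneg
        (by rw [add_zero]; exact hle1 _) (hle3 _)
      have p3 := sD_pair μ t K hsj n d₂ d₃ hK4
        (by rw [hK]; have := norm_nonneg (gi d₃); linarith)
        (by rw [hK]; have := norm_nonneg (gi d₂); linarith)
        (by rw [← hgneg, neg_sub]; exact h23)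
        (μ₂.real (sq t (n + d₂))) (μ₃.real (sq t (n + d₃))) measureReal_nonneg measureReal_nonneg
        (hle2 _) (hle3 _)
      have q1 : 0 ≤ ∫ z in sq t (n + 0), D z ∂μ := integral_nonneg hD0
      have q2 : 0 ≤ ∫ z in sq t (n + d₂), D z ∂μ := integral_nonneg hD0
      have q3 : 0 ≤ ∫ z in sq t (n + d₃), D z ∂μ := integral_nonneg hD0
      split_ifs with hif
      · have hs1 := sD_sort (μ₁.real (sq t n)) (μ₂.real (sq t (n + d₂))) (μ₃.real (sq t (n + d₃))) δ
          measureReal_nonneg measureReal_nonneg measureReal_nonneg hif.1 hif.2.1 hif.2.2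
        refine hs1.trans ?_
        have r1 := mul_le_mul_of_nonneg_left p1 hδ4
        have r2 := mul_le_mul_of_nonneg_left p2 hδ4
        have r3 := mul_le_mul_of_nonneg_left p3 hδ4
        calc _ ≤ _ := add_le_add (add_le_add r1 r2) r3
          _ = _ := by ring
      · positivity
    refine (Finset.sum_le_sum hterm).trans ?_
    rw [← Finset.mul_sum, Finset.sum_add_distrib, Finset.sum_add_distrib]
    have s1 := sD_sum_int μ t hsj (F j) 0 D hD0 hDi
    have s2 := sD_sum_int μ t hsj (F j) d₂ D hD0 hDi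
    have s3 := sD_sum_int μ t hsj (F j) d₃ D hD0 hDi
    calc _ ≤ 16 * δ ^ (1 / 4 : ℝ) * (9 * (∫ x, D x ∂μ) + 9 * (∫ x, D x ∂μ) + 9 * ∫ x, D x ∂μ) := by
          gcongr
      _ = _ := by ring
  refine (Finset.sum_le_sum hscale).trans ?_
  rw [← Finset.mul_sum]
  have hc1 := comb1 μ s (4 * K * s) hs L (by nlinarith)
    ((Finset.range J).image (fun j : ℕ => (j : ℤ)))
  rw [Finset.sum_image (fun a _ b _ h => Int.ofNat_inj.1 h)] at hc1
  have hVp : (μ.real univ) ^ (5 / 4 : ℝ) ≤ 3 ^ (5 / 4 : ℝ) * V ^ (5 / 4 : ℝ) := by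
    rw [← Real.mul_rpow (by norm_num) hV]
    exact Real.rpow_le_rpow measureReal_nonneg huniv (by norm_num)
  have hδ4 : 0 ≤ δ ^ (1 / 4 : ℝ) := Real.rpow_nonneg hδ.le _
  calc _ ≤ 432 * δ ^ (1 / 4 : ℝ) * (L * (μ.real univ) ^ (5 / 4 : ℝ)) := by gcongr
    _ ≤ 432 * δ ^ (1 / 4 : ℝ) * (L * (3 ^ (5 / 4 : ℝ) * V ^ (5 / 4 : ℝ))) := by gcongr
    _ = _ := by ring

end Pool.Agent.H24.Tri
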