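import Pool.Agent.H24.Tri.ToolA
import Pool.Agent.H24.Tri.ToolB
import Pool.Agent.H24.Tri.LW
import Pool.Agent.H24.Tri.ToolC
import Pool.Agent.H19.TriS.Base

/-! Project TRI, section S, part B: algebra of LamK. -/

set_option autoImplicit false

open MeasureTheory Set Complex Metric Filter Topology
open scoped Real ENNReal NNReal FourierTransform ComplexConjugate

namespace Pool.Agent.H24.Tri

private lemma sB_int_scale (S : ℝ) (hS : 0 < S) (f : ℂ → ℝ) :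
    ∫ w, S ^ 2 * f ((S : ℂ) * w) = ∫ w, f w := by
  have h := tb_integral_mul (S : ℂ) (by exact_mod_cast hS.ne') (fun w => (f w : ℂ))
  rw [integral_complex_ofReal, integral_complex_ofReal, Complex.norm_real, Real.norm_eq_abs,
    abs_of_pos hS, ← Complex.ofReal_mul] at h
  have h2 := Complex.ofReal_injective h
  rw [integral_const_mul]
  exact h2.symm

private lemma sB_kR_integrable (S : ℝ) (hS : 0 < S) : Integrable (fun w => ‖kR S w‖) := by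
  have h1 := (nice_integrable kapC nice_kap).2
  have h2 : Integrable (fun w : ℂ => 𝓕⁻ kapC ((S : ℂ) * w)) := by
    have := h1.comp_smul hS.ne'
    simpa only [Complex.real_smul] using this
  exact (h2.const_mul ((S : ℂ) ^ 2)).norm

private lemma sB_kR_norm (S : ℝ) (hS : 0 < S) : ∫ w, ‖kR S w‖ = ∫ w, ‖𝓕⁻ kapC w‖ := by
  rw [← sB_int_scale S hS (fun w => ‖𝓕⁻ kapC w‖)]
  congr 1
  ext w
  rw [kR, norm_mul, norm_pow, Complex.norm_real, Real.norm_eq_abs, abs_of_pos hS]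

private lemma sB_lamK_norm (ρ : ℂ) (S : ℝ) (hS : 0 < S) (f₁ f₂ f₃ : ℂ → ℂ) (B : ℝ)
    (h : ∀ w, ‖Lam ρ f₁ f₂ f₃ w‖ ≤ B) :
    ‖LamK ρ (kR S) f₁ f₂ f₃‖ ≤ (∫ w, ‖𝓕⁻ kapC w‖) * B := by
  rw [LamK, ← sB_kR_norm S hS, ← integral_mul_const]
  apply norm_integral_le_of_norm_le ((sB_kR_integrable S hS).mul_const B)
  refine Eventually.of_forall fun w => ?_
  rw [norm_mul]
  exact mul_le_mul_of_nonneg_left (h w) (norm_nonneg _)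

/-- bound of LamK by a uniform bound of Lam -/
theorem lamK_le_sup (ρ : ℂ) : ∃ C : ℝ, 0 ≤ C ∧ ∀ (S : ℝ) (f₁ f₂ f₃ : ℂ → ℂ) (B : ℝ), 0 < S →
    (∀ w, ‖Lam ρ f₁ f₂ f₃ w‖ ≤ B) → ‖LamK ρ (kR S) f₁ f₂ f₃‖ ≤ C * B :=
  ⟨∫ w, ‖𝓕⁻ kapC w‖, integral_nonneg fun _ => norm_nonneg _,
    fun S f₁ f₂ f₃ B hS h => sB_lamK_norm ρ S hS f₁ f₂ f₃ B h⟩

/-- the L² bound -/
theorem lamK_le (ρ : ℂ) (hρ : ρ.im ≠ 0) : ∃ C : ℝ, 0 ≤ C ∧ ∀ (S : ℝ) (a₁ a₂ a₃ : ℂ → ℂ), 0 < S →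
    Nice a₁ → Nice a₂ → Nice a₃ → ‖LamK ρ (kR S) (𝓕⁻ a₁) (𝓕⁻ a₂) (𝓕⁻ a₃)‖ ≤
      C * Real.sqrt (∫ z, ‖a₁ z‖ ^ 2) * Real.sqrt (∫ z, ‖a₂ z‖ ^ 2) *
        Real.sqrt (∫ z, ‖a₃ z‖ ^ 2) := by
  obtain ⟨C, hC, hL⟩ := lam_le ρ hρ
  refine ⟨(∫ w, ‖𝓕⁻ kapC w‖) * C, mul_nonneg (integral_nonneg fun _ => norm_nonneg _) hC, ?_⟩
  intro S a₁ a₂ a₃ hS h1 h2 h3
  have := sB_lamK_norm ρ S hS (𝓕⁻ a₁) (𝓕⁻ a₂) (𝓕⁻ a₃) _
    (fun w => hL _ _ _ (nice_memLp a₁ h1).2 (nice_memLp a₂ h2).2 (nice_memLp a₃ h3).2 w)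
  rw [plancherel_sq a₁ h1, plancherel_sq a₂ h2, plancherel_sq a₃ h3] at this
  calc _ ≤ _ := this
    _ = _ := by ring

/-! ### the Fourier side -/

/-- the weight of the Fourier form -/
private noncomputable def sBW (ρ : ℂ) (x : ℂ × ℂ) : ℂ :=
  ∫ θ in Ioc 0 (2 * π),
    Complex.exp (((2 * π * (conj (x.1 + conj ρ * x.2) * cis θ).re : ℝ) : ℂ) * Complex.I)

private lemma sBW_cont (ρ : ℂ) : Continuous (sBW ρ) := by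
  have h : sBW ρ = fun x : ℂ × ℂ => ∫ θ in Icc 0 (2 * π),
      Complex.exp (((2 * π * (conj (x.1 + conj ρ * x.2) * cis θ).re : ℝ) : ℂ) * Complex.I) := by
    funext x
    rw [sBW, integral_Icc_eq_integral_Ioc]
  rw [h]
  apply continuous_parametric_integral_of_continuous _ isCompact_Icc
  have hc := lw_continuous_cis
  have hconj : Continuous (fun z : ℂ => conj z) := Complex.continuous_conj
  fun_prop

private lemma sB_prod_int (ρ : ℂ) (a₁ a₂ a₃ : ℂ → ℂ) (h₁ : Nice a₁) (h₂ : Nice a₂)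
    (h₃ : Nice a₃) (φ : ℂ × ℂ → ℂ) (hφ : Continuous φ) :
    Integrable (fun x : ℂ × ℂ => a₁ (-x.1 - x.2) * a₂ x.1 * a₃ x.2 * φ x) := by
  have c1 := h₁.smooth.continuous
  have c2 := h₂.smooth.continuous
  have c3 := h₃.smooth.continuous
  have hcont : Continuous (fun x : ℂ × ℂ => a₁ (-x.1 - x.2) * a₂ x.1 * a₃ x.2 * φ x) := by
    fun_prop
  apply hcont.integrable_of_hasCompactSupport
  apply HasCompactSupport.of_support_subset_isCompact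
    (K := tsupport a₂ ×ˢ tsupport a₃) (h₂.compact.isCompact.prod h₃.compact.isCompact)
  intro x hx
  rw [Function.mem_support] at hx
  constructor
  · apply subset_tsupport
    rw [Function.mem_support]
    intro h0
    apply hx
    simp [h0]
  · apply subset_tsupport
    rw [Function.mem_support]
    intro h0
    apply hx
    simp [h0]

private lemma sB_nice_zero : Nice (fun _ : ℂ => (0 : ℂ)) :=
  ⟨contDiff_const, HasCompactSupport.zero⟩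

private lemma sB_nice_add (a b : ℂ → ℂ) (ha : Nice a) (hb : Nice b) : Nice (fun ξ => a ξ + b ξ) :=
  ⟨ha.smooth.add hb.smooth, ha.compact.add hb.compact⟩

private lemma sB_nice_sum (F : Finset (ℤ × ℤ)) (a : ℤ × ℤ → ℂ → ℂ) (h : ∀ n, Nice (a n)) :
    Nice (fun ξ => ∑ n ∈ F, a n ξ) := by
  classical
  induction F using Finset.induction_on with
  | empty => simpa using sB_nice_zero
  | insert n s hn ih =>
    simp only [Finset.sum_insert hn]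
    exact sB_nice_add _ _ (h n) ih

private lemma sB_form (ρ : ℂ) (hρ : ρ.im ≠ 0) (S : ℝ) (hS : 0 < S) (m a₁ a₂ a₃ : ℂ → ℂ)
    (hm : Nice m) (h₁ : Nice a₁) (h₂ : Nice a₂) (h₃ : Nice a₃) :
    LamK ρ (fun w => (S : ℂ) ^ 2 * 𝓕⁻ m ((S : ℂ) * w)) (𝓕⁻ a₁) (𝓕⁻ a₂) (𝓕⁻ a₃) =
      ∫ x : ℂ × ℂ, a₁ (-x.1 - x.2) * a₂ x.1 * a₃ x.2 *
        (m (-(x.1 + conj ρ * x.2) / (S : ℂ)) * sBW ρ x) :=
  lamK_fourier ρ hρ S hS m a₁ a₂ a₃ hm h₁ h₂ h₃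

private lemma sB_phi_cont (ρ : ℂ) (S : ℝ) (m : ℂ → ℂ) (hm : Nice m) :
    Continuous (fun x : ℂ × ℂ => m (-(x.1 + conj ρ * x.2) / (S : ℂ)) * sBW ρ x) := by
  have h1 := hm.smooth.continuous
  have h2 := sBW_cont ρ
  have h3 : Continuous (fun x : ℂ × ℂ => -(x.1 + conj ρ * x.2) / (S : ℂ)) :=
    Continuous.div_const (by fun_prop) _
  exact (h1.comp h3).mul h2

/-- trilinearity -/
theorem lamK_sum (ρ : ℂ) (hρ : ρ.im ≠ 0) (S : ℝ) (hS : 0 < S) (F₁ F₂ F₃ : Finset (ℤ × ℤ))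
    (a₁ a₂ a₃ : ℤ × ℤ → ℂ → ℂ) (h₁ : ∀ n, Nice (a₁ n)) (h₂ : ∀ n, Nice (a₂ n))
    (h₃ : ∀ n, Nice (a₃ n)) :
    LamK ρ (kR S) (𝓕⁻ (fun ξ => ∑ n ∈ F₁, a₁ n ξ)) (𝓕⁻ (fun ξ => ∑ n ∈ F₂, a₂ n ξ))
      (𝓕⁻ (fun ξ => ∑ n ∈ F₃, a₃ n ξ)) =
      ∑ n₁ ∈ F₁, ∑ n₂ ∈ F₂, ∑ n₃ ∈ F₃,
        LamK ρ (kR S) (𝓕⁻ (a₁ n₁)) (𝓕⁻ (a₂ n₂)) (𝓕⁻ (a₃ n₃)) := by
  have hk : kR S = fun w => (S : ℂ) ^ 2 * 𝓕⁻ kapC ((S : ℂ) * w) := rfl
  rw [hk, sB_form ρ hρ S hS kapC _ _ _ nice_kap (sB_nice_sum F₁ a₁ h₁) (sB_nice_sum F₂ a₂ h₂)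
    (sB_nice_sum F₃ a₃ h₃)]
  have hφ := sB_phi_cont ρ S kapC nice_kap
  set φ : ℂ × ℂ → ℂ := fun x => kapC (-(x.1 + conj ρ * x.2) / (S : ℂ)) * sBW ρ x with hφd
  have e : ∀ x : ℂ × ℂ, (∑ n ∈ F₁, a₁ n (-x.1 - x.2)) * (∑ n ∈ F₂, a₂ n x.1) *
      (∑ n ∈ F₃, a₃ n x.2) * φ x = ∑ n₁ ∈ F₁, ∑ n₂ ∈ F₂, ∑ n₃ ∈ F₃,
        a₁ n₁ (-x.1 - x.2) * a₂ n₂ x.1 * a₃ n₃ x.2 * φ x := by
    intro x
    rw [Finset.sum_mul_sum, Finset.sum_mul, Finset.sum_mul]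
    refine Finset.sum_congr rfl fun n₁ _ => ?_
    rw [Finset.sum_mul_sum, Finset.sum_mul]
    refine Finset.sum_congr rfl fun n₂ _ => ?_
    rw [Finset.sum_mul]
  have hint : ∀ n₁ n₂ n₃, Integrable (fun x : ℂ × ℂ =>
      a₁ n₁ (-x.1 - x.2) * a₂ n₂ x.1 * a₃ n₃ x.2 * φ x) :=
    fun n₁ n₂ n₃ => sB_prod_int ρ _ _ _ (h₁ n₁) (h₂ n₂) (h₃ n₃) φ hφ
  have e2 : (fun x : ℂ × ℂ => (∑ n ∈ F₁, a₁ n (-x.1 - x.2)) * (∑ n ∈ F₂, a₂ n x.1) *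
      (∑ n ∈ F₃, a₃ n x.2) * (kapC (-(x.1 + conj ρ * x.2) / (S : ℂ)) * sBW ρ x)) =
      fun x => ∑ n₁ ∈ F₁, ∑ n₂ ∈ F₂, ∑ n₃ ∈ F₃,
        a₁ n₁ (-x.1 - x.2) * a₂ n₂ x.1 * a₃ n₃ x.2 * φ x := funext e
  rw [e2, integral_finsetSum _ (fun n₁ _ => integrable_finsetSum _ fun n₂ _ =>
    integrable_finsetSum _ fun n₃ _ => hint n₁ n₂ n₃)]
  refine Finset.sum_congr rfl fun n₁ _ => ?_
  rw [integral_finsetSum _ (fun n₂ _ => integrable_finsetSum _ fun n₃ _ => hint n₁ n₂ n₃)]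
  refine Finset.sum_congr rfl fun n₂ _ => ?_
  rw [integral_finsetSum _ (fun n₃ _ => hint n₁ n₂ n₃)]
  refine Finset.sum_congr rfl fun n₃ _ => ?_
  rw [sB_form ρ hρ S hS kapC _ _ _ nice_kap (h₁ n₁) (h₂ n₂) (h₃ n₃)]

private lemma sB_step (ρ : ℂ) (hρ : ρ.im ≠ 0) (T : ℝ) (hT : 0 < T) (a₁ a₂ a₃ : ℂ → ℂ)
    (h₁ : Nice a₁) (h₂ : Nice a₂) (h₃ : Nice a₃) :
    LamK ρ (kR T) (𝓕⁻ a₁) (𝓕⁻ a₂) (𝓕⁻ a₃) =
      LamK ρ (PR (2 * T)) (𝓕⁻ a₁) (𝓕⁻ a₂) (𝓕⁻ a₃) - LamK ρ (PR T) (𝓕⁻ a₁) (𝓕⁻ a₂) (𝓕⁻ a₃) := by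
  have hk : kR T = fun w => (T : ℂ) ^ 2 * 𝓕⁻ kapC ((T : ℂ) * w) := rfl
  have hP : ∀ U : ℝ, PR U = fun w => (U : ℂ) ^ 2 * 𝓕⁻ chiC ((U : ℂ) * w) := fun _ => rfl
  have h2T : 0 < 2 * T := by positivity
  rw [hk, hP, hP, sB_form ρ hρ T hT kapC _ _ _ nice_kap h₁ h₂ h₃,
    sB_form ρ hρ T hT chiC _ _ _ nice_chi h₁ h₂ h₃,
    sB_form ρ hρ (2 * T) h2T chiC _ _ _ nice_chi h₁ h₂ h₃,
    ← integral_sub (sB_prod_int ρ _ _ _ h₁ h₂ h₃ _ (sB_phi_cont ρ (2 * T) chiC nice_chi))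
      (sB_prod_int ρ _ _ _ h₁ h₂ h₃ _ (sB_phi_cont ρ T chiC nice_chi))]
  congr 1
  funext x
  have e : -(x.1 + conj ρ * x.2) / (T : ℂ) / 2 = -(x.1 + conj ρ * x.2) / ((2 * T : ℝ) : ℂ) := by
    rw [div_div]; push_cast; rw [mul_comm (T : ℂ) 2]
  rw [kapC, e]
  ring

private lemma sB_bdd (a : ℂ → ℂ) (h : Nice a) : ∃ B : ℝ, 0 ≤ B ∧ ∀ x, a x ≠ 0 → ‖x‖ ≤ B := by
  obtain ⟨B, hB⟩ := h.compact.isCompact.isBounded.exists_norm_le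
  refine ⟨max B 0, le_max_right _ _, fun x hx => (hB x (subset_tsupport _ hx)).trans (le_max_left _ _)⟩

/-- telescoping over dyadic scales -/
theorem lamK_tele (ρ : ℂ) (hρ : ρ.im ≠ 0) (R : ℝ) (hR : 0 < R) (a₁ a₂ a₃ : ℂ → ℂ)
    (h₁ : Nice a₁) (h₂ : Nice a₂) (h₃ : Nice a₃) : ∃ J : ℕ,
    Lam ρ (𝓕⁻ a₁) (𝓕⁻ a₂) (𝓕⁻ a₃) 0 - LamK ρ (PR R) (𝓕⁻ a₁) (𝓕⁻ a₂) (𝓕⁻ a₃) =
      ∑ j ∈ Finset.range J, LamK ρ (kR (2 ^ j * R)) (𝓕⁻ a₁) (𝓕⁻ a₂) (𝓕⁻ a₃) := by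
  obtain ⟨B₂, hB₂, hb₂⟩ := sB_bdd a₂ h₂
  obtain ⟨B₃, hB₃, hb₃⟩ := sB_bdd a₃ h₃
  obtain ⟨J, hJ⟩ := pow_unbounded_of_one_lt ((B₂ + ‖ρ‖ * B₃) / R) (by norm_num : (1 : ℝ) < 2)
  rw [div_lt_iff₀ hR] at hJ
  have hsum : ∀ J : ℕ, ∑ j ∈ Finset.range J, LamK ρ (kR (2 ^ j * R)) (𝓕⁻ a₁) (𝓕⁻ a₂) (𝓕⁻ a₃) =
      LamK ρ (PR (2 ^ J * R)) (𝓕⁻ a₁) (𝓕⁻ a₂) (𝓕⁻ a₃) -
        LamK ρ (PR R) (𝓕⁻ a₁) (𝓕⁻ a₂) (𝓕⁻ a₃) := by
    intro J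
    induction J with
    | zero => simp
    | succ n ih =>
      rw [Finset.sum_range_succ, ih, sB_step ρ hρ (2 ^ n * R) (by positivity) a₁ a₂ a₃ h₁ h₂ h₃,
        show (2 : ℝ) * (2 ^ n * R) = 2 ^ (n + 1) * R by ring]
      ring
  refine ⟨J, ?_⟩
  rw [hsum J, lamK_full ρ hρ (2 ^ J * R) (by positivity) a₁ a₂ a₃ h₁ h₂ h₃]
  intro x y hxy
  have hx : a₂ x ≠ 0 := by
    intro h0; apply hxy; simp [h0]
  have hy : a₃ y ≠ 0 := by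
    intro h0; apply hxy; simp [h0]
  have n1 : ‖x + conj ρ * y‖ ≤ B₂ + ‖ρ‖ * B₃ := by
    refine (norm_add_le _ _).trans ?_
    rw [norm_mul, RCLike.norm_conj]
    exact add_le_add (hb₂ x hx) (mul_le_mul_of_nonneg_left (hb₃ y hy) (norm_nonneg _))
  linarith

/-- modulation invariance of LamK -/
theorem lamK_mod (ρ : ℂ) (k : ℂ → ℂ) (κ : ℂ) (a₁ a₂ a₃ : ℂ → ℂ) :
    LamK ρ k (𝓕⁻ (fun ξ => a₁ (ξ + c1 ρ * κ))) (𝓕⁻ (fun ξ => a₂ (ξ + c2 ρ * κ)))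
      (𝓕⁻ (fun ξ => a₃ (ξ + c3 * κ))) = LamK ρ k (𝓕⁻ a₁) (𝓕⁻ a₂) (𝓕⁻ a₃) := by
  have h : ∀ (c : ℂ) (a : ℂ → ℂ), 𝓕⁻ (fun ξ => a (ξ + c * κ)) = fun z =>
      Complex.exp (((2 * π * (conj (c * (-κ)) * z).re : ℝ) : ℂ) * Complex.I) * 𝓕⁻ a z := by
    intro c a
    funext z
    rw [modulate]
    have e : -(2 * π * (conj (c * κ) * z).re) = 2 * π * (conj (c * (-κ)) * z).re := by
      rw [mul_neg, map_neg, neg_mul, Complex.neg_re]; ring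
    rw [e]
  have ht : ∀ v, tri ρ (𝓕⁻ (fun ξ => a₁ (ξ + c1 ρ * κ))) (𝓕⁻ (fun ξ => a₂ (ξ + c2 ρ * κ)))
      (𝓕⁻ (fun ξ => a₃ (ξ + c3 * κ))) v = tri ρ (𝓕⁻ a₁) (𝓕⁻ a₂) (𝓕⁻ a₃) v := by
    intro v
    rw [h (c1 ρ) a₁, h (c2 ρ) a₂, h c3 a₃]
    exact tri_modulate ρ (-κ) _ _ _ v
  simp only [LamK, Lam, ht]

private lemma sB_tri_swap (ρ : ℂ) (f₁ f₂ f₃ : ℂ → ℂ) (v : ℂ) :
    tri ρ f₁ f₂ f₃ v = tri (1 - ρ) f₂ f₁ f₃ (-v) := by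
  rw [tri, tri, ← integral_add_right_eq_self
    (fun z => f₂ z * f₁ (z + -v) * f₃ (z + (1 - ρ) * -v)) v]
  congr 1
  funext z
  rw [show z + v + -v = z by ring, show z + v + (1 - ρ) * -v = z + ρ * v by ring]
  ring

private lemma sB_cis_pi (θ : ℝ) : cis (θ + π) = -cis θ := by
  rw [cis, cis]
  push_cast
  rw [add_mul, Complex.exp_add, Complex.exp_pi_mul_I]
  ring

private lemma sB_cis_period (θ : ℝ) : cis (θ + 2 * π) = cis θ := by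
  rw [show θ + 2 * π = θ + π + π by ring, sB_cis_pi, sB_cis_pi, neg_neg]

private lemma sB_Lam_swap (ρ : ℂ) (f₁ f₂ f₃ : ℂ → ℂ) (w : ℂ) :
    Lam ρ f₁ f₂ f₃ w = Lam (1 - ρ) f₂ f₁ f₃ (-w) := by
  rw [Lam, Lam, ← intervalIntegral.integral_of_le (by positivity),
    ← intervalIntegral.integral_of_le (by positivity)]
  have hper : Function.Periodic (fun θ => tri (1 - ρ) f₂ f₁ f₃ (cis θ + -w)) (2 * π) := by
    intro θ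
    simp only [sB_cis_period]
  have h1 : (fun θ => tri ρ f₁ f₂ f₃ (cis θ + w)) =
      fun θ => (fun θ => tri (1 - ρ) f₂ f₁ f₃ (cis θ + -w)) (θ + π) := by
    funext θ
    simp only
    rw [sB_tri_swap, sB_cis_pi, neg_add]
  rw [h1, intervalIntegral.integral_comp_add_right (fun θ => tri (1 - ρ) f₂ f₁ f₃ (cis θ + -w)) π]
  have h2 := hper.intervalIntegral_add_eq π 0
  rw [zero_add] at h2
  rw [zero_add, show 2 * π + π = π + 2 * π by ring]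
  exact h2

private lemma sB_kR_even (S : ℝ) (w : ℂ) : kR S (-w) = kR S w := by
  have hkap : ∀ z, kapC (-z) = kapC z := by
    intro z
    rw [kapC, kapC, chiC, chiC, chiC, chiC, chi, chi, chi, chi, neg_div, norm_neg, norm_neg]
  rw [kR, kR, mul_neg]
  congr 1
  rw [tb_fourierInv, tb_fourierInv, ← integral_neg_eq_self]
  congr 1
  funext ξ
  rw [hkap, map_neg, neg_mul_neg]

/-- exchange of the first two functions -/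
theorem lamK_swap (ρ : ℂ) (S : ℝ) (f₁ f₂ f₃ : ℂ → ℂ) :
    LamK ρ (kR S) f₁ f₂ f₃ = LamK (1 - ρ) (kR S) f₂ f₁ f₃ := by
  rw [LamK, LamK, ← integral_neg_eq_self (fun w => kR S w * Lam (1 - ρ) f₂ f₁ f₃ w)]
  congr 1
  funext w
  rw [sB_Lam_swap, sB_kR_even]

private lemma sB_piece_mem (c : ℂ) (s : ℝ) (hs : 0 < s) (n : ℤ × ℤ) (a : ℂ → ℂ)
    (ξ : ℂ) (h : piece c s n a ξ ≠ 0) : ξ / c ∈ sq s n := by
  by_contra hcon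
  apply h
  rw [piece]
  have hsym : sym c s n ξ = 0 := by
    rw [sym, theta]
    have e : ξ / (c * s) - gi n = (ξ / c) / s - gi n := by rw [div_div]
    rw [e]
    have hre : ((ξ / c) / (s : ℂ) - gi n).re = ((ξ / c).re - s * n.1) / s := by
      rw [Complex.sub_re, gi_re, Complex.div_ofReal_re]
      field_simp
    have him : ((ξ / c) / (s : ℂ) - gi n).im = ((ξ / c).im - s * n.2) / s := by
      rw [Complex.sub_im, gi_im, Complex.div_ofReal_im]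
      field_simp
    rw [hre, him]
    have : ¬ (|(ξ / c).re - s * n.1| ≤ s ∧ |(ξ / c).im - s * n.2| ≤ s) := hcon
    rw [not_and_or] at this
    rcases this with h1 | h1
    · rw [th_zero (((ξ / c).re - s * n.1) / s), zero_mul]
      rw [abs_div, abs_of_pos hs, le_div_iff₀ hs]
      linarith
    · rw [th_zero (((ξ / c).im - s * n.2) / s), mul_zero]
      rw [abs_div, abs_of_pos hs, le_div_iff₀ hs]
      linarith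
  rw [hsym]
  simp

private lemma sB_sq_diff (s : ℝ) (n m : ℤ × ℤ) (x y : ℂ) (hx : x ∈ sq s n) (hy : y ∈ sq s m) :
    ‖(x - y) - s * gi (n - m)‖ ≤ 3 * s := by
  obtain ⟨h1, h2⟩ := hx
  obtain ⟨h3, h4⟩ := hy
  have hs : 0 ≤ s := le_trans (abs_nonneg _) h1
  have e1 : ((x - y) - s * gi (n - m)).re = (x.re - s * n.1) - (y.re - s * m.1) := by
    simp [gi]; ring
  have e2 : ((x - y) - s * gi (n - m)).im = (x.im - s * n.2) - (y.im - s * m.2) := by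
    simp [gi]; ring
  have b1 : |((x - y) - s * gi (n - m)).re| ≤ 2 * s := by
    rw [e1]; exact (abs_sub _ _).trans (by linarith)
  have b2 : |((x - y) - s * gi (n - m)).im| ≤ 2 * s := by
    rw [e2]; exact (abs_sub _ _).trans (by linarith)
  have q1 : ((x - y) - s * gi (n - m)).re ^ 2 ≤ (2 * s) ^ 2 := by
    rw [← sq_abs]; exact pow_le_pow_left₀ (abs_nonneg _) b1 2
  have q2 : ((x - y) - s * gi (n - m)).im ^ 2 ≤ (2 * s) ^ 2 := by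
    rw [← sq_abs]; exact pow_le_pow_left₀ (abs_nonneg _) b2 2
  have q3 : ‖(x - y) - s * gi (n - m)‖ ^ 2 =
      ((x - y) - s * gi (n - m)).re ^ 2 + ((x - y) - s * gi (n - m)).im ^ 2 := by
    rw [Complex.sq_norm, Complex.normSq_apply]; ring
  have q4 : ‖(x - y) - s * gi (n - m)‖ ^ 2 ≤ (3 * s) ^ 2 := by rw [q3]; nlinarith [sq_nonneg s]
  exact (sq_le_sq₀ (norm_nonneg _) (by positivity)).1 q4

/-- the distance of two squares from the distance of two of their points -/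
private lemma sB_sep (ρ : ℂ) (s S t A M : ℝ) (hs : 0 < s) (n m : ℤ × ℤ) (x y : ℂ)
    (hx : x ∈ sq s n) (hy : y ∈ sq s m) (hn : ‖x - y‖ = t * A) (hA : 0 ≤ A) (ht1 : S ≤ t)
    (ht2 : t ≤ 4 * S) (hsA : 100 * s ≤ S * A) (hM : 4 * S * A + 3 * s ≤ M * s) :
    90 ≤ ‖gi (n - m)‖ ∧ ‖gi (n - m)‖ ≤ M := by
  have h := sB_sq_diff s n m x y hx hy
  have hg : ‖(s : ℂ) * gi (n - m)‖ = s * ‖gi (n - m)‖ := by
    rw [norm_mul, Complex.norm_real, Real.norm_eq_abs, abs_of_pos hs]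
  have h1 : ‖x - y‖ ≤ ‖(x - y) - s * gi (n - m)‖ + ‖(s : ℂ) * gi (n - m)‖ := by
    calc ‖x - y‖ = ‖((x - y) - s * gi (n - m)) + s * gi (n - m)‖ := by congr 1; ring
      _ ≤ _ := norm_add_le _ _
  have h2 : ‖(s : ℂ) * gi (n - m)‖ ≤ ‖(x - y) - s * gi (n - m)‖ + ‖x - y‖ := by
    calc ‖(s : ℂ) * gi (n - m)‖ = ‖-((x - y) - s * gi (n - m)) + (x - y)‖ := by congr 1; ring
      _ ≤ _ := (norm_add_le _ _).trans (by rw [norm_neg])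
  rw [hg] at h1 h2
  rw [hn] at h1 h2
  have h3 : S * A ≤ t * A := mul_le_mul_of_nonneg_right ht1 hA
  have h4 : t * A ≤ 4 * S * A := mul_le_mul_of_nonneg_right ht2 hA
  constructor
  · have : s * 90 ≤ s * ‖gi (n - m)‖ := by nlinarith
    exact le_of_mul_le_mul_left this hs
  · have : s * ‖gi (n - m)‖ ≤ s * M := by nlinarith
    exact le_of_mul_le_mul_left this hs

/-- only admissible triples contribute -/
theorem pf_zero (ρ : ℂ) (hρ : ρ.im ≠ 0) : ∃ M : ℝ, ∀ (S : ℝ) (n₁ n₂ n₃ : ℤ × ℤ)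
    (a₁ a₂ a₃ : ℂ → ℂ), 0 < S → Nice a₁ → Nice a₂ → Nice a₃ → ¬ Good M n₁ n₂ n₃ →
    pf ρ S n₁ n₂ n₃ a₁ a₂ a₃ = 0 := by
  have hρ0 : ρ ≠ 0 := by rintro rfl; simp at hρ
  have hρ1 : ρ - 1 ≠ 0 := by
    intro h
    apply hρ
    have : (ρ - 1).im = 0 := by rw [h]; simp
    simpa using this
  have p0 : 0 < ‖ρ‖ := norm_pos_iff.2 hρ0
  have p1 : 0 < ‖ρ - 1‖ := norm_pos_iff.2 hρ1
  have hη : 0 < eta0 ρ := by rw [eta0]; positivity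
  have hηs : 100 * eta0 ρ = (‖ρ‖ + ‖ρ - 1‖ + ‖ρ‖ * ‖ρ - 1‖)⁻¹ := by rw [eta0]; ring
  set A : ℝ := ‖ρ‖⁻¹ + ‖ρ - 1‖⁻¹ + (‖ρ‖ * ‖ρ - 1‖)⁻¹ with hA
  have i0 : 0 < ‖ρ‖⁻¹ := inv_pos.2 p0
  have i1 : 0 < ‖ρ - 1‖⁻¹ := inv_pos.2 p1
  have i2 : 0 < (‖ρ‖ * ‖ρ - 1‖)⁻¹ := by positivity
  have hcr0 : conj ρ ≠ 0 := by rwa [Ne, map_eq_zero]
  have hcr1 : conj ρ - 1 ≠ 0 := by
    intro h
    apply hρ1
    have : conj (conj ρ - 1) = 0 := by rw [h, map_zero]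
    rwa [map_sub, Complex.conj_conj, map_one] at this
  have nr0 : ‖conj ρ‖ = ‖ρ‖ := RCLike.norm_conj ρ
  have nr1 : ‖conj ρ - 1‖ = ‖ρ - 1‖ := by
    have : conj ρ - 1 = conj (ρ - 1) := by rw [map_sub, map_one]
    rw [this, RCLike.norm_conj]
  refine ⟨4 * A / eta0 ρ + 3, ?_⟩
  intro S n₁ n₂ n₃ a₁ a₂ a₃ hS h1 h2 h3 hG
  have hs : 0 < eta0 ρ * S := by positivity
  rw [pf]
  apply lamK_vanish ρ hρ S hS _ _ _ (nice_piece _ _ _ _ h1) (nice_piece _ _ _ _ h2)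
    (nice_piece _ _ _ _ h3)
  intro x y hxy
  by_contra hcon
  push Not at hcon
  apply hG
  have m1 : piece (c1 ρ) (eta0 ρ * S) n₁ a₁ (-x - y) ≠ 0 := by
    intro h0; apply hxy; rw [h0]; ring
  have m2 : piece (c2 ρ) (eta0 ρ * S) n₂ a₂ x ≠ 0 := by
    intro h0; apply hxy; rw [h0]; ring
  have m3 : piece c3 (eta0 ρ * S) n₃ a₃ y ≠ 0 := by
    intro h0; apply hxy; rw [h0]; ring
  have k1 := sB_piece_mem _ _ hs _ _ _ m1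
  have k2 := sB_piece_mem _ _ hs _ _ _ m2
  have k3 := sB_piece_mem _ _ hs _ _ _ m3
  set ζ : ℂ := x + conj ρ * y with hζ
  have d12 : (-x - y) / c1 ρ - x / c2 ρ = -ζ / (conj ρ * (conj ρ - 1)) := by
    rw [c1, c2, hζ]; field_simp; ring
  have d13 : (-x - y) / c1 ρ - y / c3 = -ζ / (conj ρ - 1) := by
    rw [c1, c3, hζ]; field_simp; ring
  have d23 : x / c2 ρ - y / c3 = -ζ / conj ρ := by
    rw [c2, c3, hζ]; field_simp; ring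
  have n12 : ‖(-x - y) / c1 ρ - x / c2 ρ‖ = ‖ζ‖ * (‖ρ‖ * ‖ρ - 1‖)⁻¹ := by
    rw [d12, norm_div, norm_neg, norm_mul, nr0, nr1, div_eq_mul_inv]
  have n13 : ‖(-x - y) / c1 ρ - y / c3‖ = ‖ζ‖ * ‖ρ - 1‖⁻¹ := by
    rw [d13, norm_div, norm_neg, nr1, div_eq_mul_inv]
  have n23 : ‖x / c2 ρ - y / c3‖ = ‖ζ‖ * ‖ρ‖⁻¹ := by
    rw [d23, norm_div, norm_neg, nr0, div_eq_mul_inv]
  have hM : ∀ B : ℝ, B ≤ A → 4 * S * B + 3 * (eta0 ρ * S) ≤ (4 * A / eta0 ρ + 3) * (eta0 ρ * S) := by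
    intro B hB
    have e : (4 * A / eta0 ρ + 3) * (eta0 ρ * S) = 4 * S * A + 3 * (eta0 ρ * S) := by
      field_simp
    rw [e]
    have : S * B ≤ S * A := mul_le_mul_of_nonneg_left hB hS.le
    linarith
  have hL : ∀ B : ℝ, 0 < B → B ≤ ‖ρ‖ + ‖ρ - 1‖ + ‖ρ‖ * ‖ρ - 1‖ →
      100 * (eta0 ρ * S) ≤ S * B⁻¹ := by
    intro B hB0 hB
    have e : 100 * (eta0 ρ * S) = S * (‖ρ‖ + ‖ρ - 1‖ + ‖ρ‖ * ‖ρ - 1‖)⁻¹ := by
      rw [← hηs]; ring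
    rw [e]
    exact mul_le_mul_of_nonneg_left (inv_anti₀ hB0 hB) hS.le
  have q0 : 0 < ‖ρ‖ * ‖ρ - 1‖ := mul_pos p0 p1
  refine ⟨?_, ?_, ?_⟩
  · exact sB_sep ρ (eta0 ρ * S) S ‖ζ‖ _ _ hs n₁ n₂ _ _ k1 k2 n12 i2.le hcon.1.le hcon.2.le
      (hL _ q0 (by linarith)) (hM _ (by rw [hA]; linarith))
  · exact sB_sep ρ (eta0 ρ * S) S ‖ζ‖ _ _ hs n₁ n₃ _ _ k1 k3 n13 i1.le hcon.1.le hcon.2.le
      (hL _ p1 (by linarith)) (hM _ (by rw [hA]; linarith))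
  · exact sB_sep ρ (eta0 ρ * S) S ‖ζ‖ _ _ hs n₂ n₃ _ _ k2 k3 n23 i0.le hcon.1.le hcon.2.le
      (hL _ p0 (by linarith)) (hM _ (by rw [hA]; linarith))

end Pool.Agent.H24.Tri
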